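import Mathlib
import Pool.Agent.Q95.WeakPhase4

/-!
# MP_eac85a: no six lines of `ℝ⁴` do weak phase retrieval
-/

namespace Pool.Agent.Results.MP_eac85a_an.SixLines

open Module

/-- `x` and `y` weakly have the same phase: for one sign `θ`, `sgn (x i) = θ * sgn (y i)` at every
coordinate at which both vectors are different from zero. -/
def WeaklySamePhase {n : ℕ} (x y : EuclideanSpace ℝ (Fin n)) : Prop :=
  ∃ θ : ℝ, (θ = 1 ∨ θ = -1) ∧
    ∀ i, x i ≠ 0 → y i ≠ 0 → Real.sign (x i) = θ * Real.sign (y i)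

/-- The family `W` of subspaces does weak phase retrieval. -/
def DoesWeakPhaseRetrieval {n m : ℕ} (W : Fin m → Submodule ℝ (EuclideanSpace ℝ (Fin n))) :
    Prop :=
  ∀ x y : EuclideanSpace ℝ (Fin n),
    (∀ i, ‖(W i).starProjection x‖ = ‖(W i).starProjection y‖) → WeaklySamePhase x y

/-- Question Q1. -/
def Question : Prop :=
  ∀ n : ℕ, 2 ≤ n → ∀ d : Fin (2 * n - 2) → ℕ, (∀ i, 1 ≤ d i ∧ d i ≤ n - 1) →
    ∃ W : Fin (2 * n - 2) → Submodule ℝ (EuclideanSpace ℝ (Fin n)),
      (∀ i, finrank ℝ (W i) = d i) ∧ DoesWeakPhaseRetrieval W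

lemma sign_mul_pos {θ a b : ℝ} (hθ : θ = 1 ∨ θ = -1) (h : Real.sign a = θ * Real.sign b)
    (hab : 0 < a * b) : θ = 1 := by
  rcases hθ with h1 | h1
  · exact h1
  · exfalso
    rw [h1] at h
    rcases lt_trichotomy a 0 with ha | ha | ha
    · have hb : b < 0 := by nlinarith
      rw [Real.sign_of_neg ha, Real.sign_of_neg hb] at h
      norm_num at h
    · rw [ha] at hab; simp at hab
    · have hb : 0 < b := by nlinarith
      rw [Real.sign_of_pos ha, Real.sign_of_pos hb] at h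
      norm_num at h

lemma sign_mul_neg {θ a b : ℝ} (hθ : θ = 1 ∨ θ = -1) (h : Real.sign a = θ * Real.sign b)
    (hab : a * b < 0) : θ = -1 := by
  rcases hθ with h1 | h1
  · exfalso
    rw [h1] at h
    rcases lt_trichotomy a 0 with ha | ha | ha
    · have hb : 0 < b := by nlinarith
      rw [Real.sign_of_neg ha, Real.sign_of_pos hb] at h
      norm_num at h
    · rw [ha] at hab; simp at hab
    · have hb : b < 0 := by nlinarith
      rw [Real.sign_of_pos ha, Real.sign_of_neg hb] at h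
      norm_num at h
  · exact h1

/-- The vectors version: weak phase retrieval by six vectors of `ℝ⁴` implies `Star`. -/
lemma star_of {φ : Fin 6 → EuclideanSpace ℝ (Fin 4)}
    (h : ∀ x y : EuclideanSpace ℝ (Fin 4),
      (∀ i, |inner ℝ (φ i) x| = |inner ℝ (φ i) y|) → WeaklySamePhase x y) :
    Q95.WPR.Star (fun j k => φ j k) := by
  intro u v huv
  have key : ∀ k l, (u k) ^ 2 * (v l) ^ 2 ≤ (u l) ^ 2 * (v k) ^ 2 := by
    intro k l
    by_contra hlt
    push Not at hlt
    have huk : 0 < u k ^ 2 := by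
      rcases (sq_nonneg (u k)).lt_or_eq with h' | h'
      · exact h'
      · rw [← h'] at hlt
        nlinarith [mul_nonneg (sq_nonneg (u l)) (sq_nonneg (v k))]
    have hden : 0 < u k ^ 2 + u l ^ 2 := by nlinarith [sq_nonneg (u l)]
    set q : ℝ := (v k ^ 2 + v l ^ 2) / (u k ^ 2 + u l ^ 2) with hq
    have hq0 : 0 ≤ q := div_nonneg (by positivity) hden.le
    set s : ℝ := Real.sqrt q with hs
    have hss : s ^ 2 = q := Real.sq_sqrt hq0
    have hqd : q * (u k ^ 2 + u l ^ 2) = v k ^ 2 + v l ^ 2 := by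
      rw [hq]; field_simp
    set X : EuclideanSpace ℝ (Fin 4) := WithLp.toLp 2 (fun m => s * u m + v m) with hX
    set Y : EuclideanSpace ℝ (Fin 4) := WithLp.toLp 2 (fun m => s * u m - v m) with hY
    have hXY := h X Y (fun i => by
      have e1 : inner ℝ (φ i) X = s * ((fun k => φ i k) ⬝ᵥ u) + (fun k => φ i k) ⬝ᵥ v := by
        simp only [hX, PiLp.inner_apply, dotProduct, Fin.sum_univ_four, RCLike.inner_apply,
          conj_trivial]
        ring
      have e2 : inner ℝ (φ i) Y = s * ((fun k => φ i k) ⬝ᵥ u) - (fun k => φ i k) ⬝ᵥ v := by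
        simp only [hY, PiLp.inner_apply, dotProduct, Fin.sum_univ_four, RCLike.inner_apply,
          conj_trivial]
        ring
      rw [e1, e2]
      rcases huv i with h' | h'
      · rw [h', mul_zero, zero_add, zero_sub, abs_neg]
      · rw [h', add_zero, sub_zero])
    obtain ⟨θ, hθ, hall⟩ := hXY
    have pk : 0 < X k * Y k := by
      have : X k * Y k = s ^ 2 * u k ^ 2 - v k ^ 2 := by simp only [hX, hY]; ring
      rw [this, hss]
      have h3 : (q * u k ^ 2 - v k ^ 2) * (u k ^ 2 + u l ^ 2)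
          = u k ^ 2 * v l ^ 2 - u l ^ 2 * v k ^ 2 := by
        linear_combination (u k ^ 2) * hqd
      have h4 : 0 < (q * u k ^ 2 - v k ^ 2) * (u k ^ 2 + u l ^ 2) := by rw [h3]; linarith
      exact (pos_iff_pos_of_mul_pos h4).mpr hden
    have pl : X l * Y l < 0 := by
      have : X l * Y l = s ^ 2 * u l ^ 2 - v l ^ 2 := by simp only [hX, hY]; ring
      rw [this, hss]
      have h3 : (q * u l ^ 2 - v l ^ 2) * (u k ^ 2 + u l ^ 2)
          = u l ^ 2 * v k ^ 2 - u k ^ 2 * v l ^ 2 := by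
        linear_combination (u l ^ 2) * hqd
      have h4 : (q * u l ^ 2 - v l ^ 2) * (u k ^ 2 + u l ^ 2) < 0 := by rw [h3]; linarith
      by_contra hc
      push Not at hc
      have := mul_nonneg hc hden.le
      linarith
    have n1 : X k ≠ 0 := by intro h0; rw [h0] at pk; simp at pk
    have n2 : Y k ≠ 0 := by intro h0; rw [h0] at pk; simp at pk
    have n3 : X l ≠ 0 := by intro h0; rw [h0] at pl; simp at pl
    have n4 : Y l ≠ 0 := by intro h0; rw [h0] at pl; simp at pl
    have t1 := sign_mul_pos hθ (hall k n1 n2) pk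
    have t2 := sign_mul_neg hθ (hall l n3 n4) pl
    rw [t1] at t2
    norm_num at t2
  intro k l
  exact le_antisymm (key k l) (key l k)

/-- No six vectors of `ℝ⁴` do weak phase retrieval. -/
theorem vectors (φ : Fin 6 → EuclideanSpace ℝ (Fin 4)) :
    ∃ x y : EuclideanSpace ℝ (Fin 4), (∀ i, |inner ℝ (φ i) x| = |inner ℝ (φ i) y|) ∧
      ¬ WeaklySamePhase x y := by
  by_contra hc
  push Not at hc
  exact Q95.WPR.not_star _ (star_of hc)

/-- The family `(1,1,1,-1), (-1,1,1,1), (1,-1,1,1), (1,1,-1,-1), (1,-1,1,-1), (1,-1,-1,1)` is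
defeated by `(2,1,0,1)` and `(0,-1,0,1)` (a check of one candidate by hand). -/
lemma example_check :
    let φ : Fin 6 → Fin 4 → ℤ := ![![1, 1, 1, -1], ![-1, 1, 1, 1], ![1, -1, 1, 1],
      ![1, 1, -1, -1], ![1, -1, 1, -1], ![1, -1, -1, 1]]
    ∀ j, |φ j ⬝ᵥ ![2, 1, 0, 1]| = |φ j ⬝ᵥ ![0, -1, 0, 1]| := by
  decide

/-- No six lines of `ℝ⁴` do weak phase retrieval. -/
theorem lines (W : Fin 6 → Submodule ℝ (EuclideanSpace ℝ (Fin 4)))
    (hW : ∀ i, finrank ℝ (W i) = 1) : ¬ DoesWeakPhaseRetrieval W := by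
  intro h
  have hex : ∀ i, ∃ v : EuclideanSpace ℝ (Fin 4), W i = Submodule.span ℝ {v} := by
    intro i
    obtain ⟨v, -, hv⟩ := finrank_eq_one_iff'.mp (hW i)
    refine ⟨v, le_antisymm ?_ ?_⟩
    · intro w hw
      obtain ⟨c, hc⟩ := hv ⟨w, hw⟩
      rw [Submodule.mem_span_singleton]
      exact ⟨c, by simpa using congrArg Subtype.val hc⟩
    · rw [Submodule.span_singleton_le_iff_mem]
      exact v.2
  choose φ hφ using hex
  obtain ⟨x, y, hxy, hno⟩ := vectors φ
  apply hno
  apply h x y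
  intro i
  have hp : ∀ z, ‖(W i).starProjection z‖ = |inner ℝ (φ i) z| / ‖φ i‖ ^ 2 * ‖φ i‖ := by
    intro z
    have : (W i).starProjection z = (Submodule.span ℝ {φ i}).starProjection z := by
      congr 1
      simp only [hφ i]
    rw [this, Submodule.starProjection_singleton, norm_smul, Real.norm_eq_abs, abs_div]
    congr 2
    simp
  rw [hp, hp, hxy i]

theorem result :
    (∀ φ : Fin 6 → EuclideanSpace ℝ (Fin 4), ∃ x y : EuclideanSpace ℝ (Fin 4),
      (∀ i, |inner ℝ (φ i) x| = |inner ℝ (φ i) y|) ∧ ¬ WeaklySamePhase x y) ∧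
    (∀ W : Fin 6 → Submodule ℝ (EuclideanSpace ℝ (Fin 4)), (∀ i, finrank ℝ (W i) = 1) →
      ¬ DoesWeakPhaseRetrieval W) ∧
    ¬ Question := by
  refine ⟨vectors, lines, ?_⟩
  intro hQ
  obtain ⟨W, hW, hWPR⟩ := hQ 4 (by norm_num) (fun _ => 1) (fun i => ⟨le_refl 1, by norm_num⟩)
  exact lines W hW hWPR

end Pool.Agent.Results.MP_eac85a_an.SixLines
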